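import Pool.Agent.Helper952_Quasi.Final

/-!
# No polynomial-time construction of closed quasigeodesics

There are convex polyhedra with rational vertices, of total bit length polynomial in `N`, on which
every (simple) closed quasigeodesic, cut in any way into straight segments lying in faces, has a
segment endpoint with a coordinate that is not algebraic of degree less than `2 ^ N`. So whatever
exact output format is used in which a word of length `L` can describe only points of degree
polynomial in `L` (for example: for each crossed edge the position on it, given by the coefficient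
list of an integer polynomial and an isolating interval), every correct output on them is
exponentially long, and no Turing machine running in polynomial time is correct on all convex
polyhedra. A concrete instance with coefficient lists is `Helper952Quasi.standard`.
-/

set_option autoImplicit false

namespace Pool.Agent.Results.MP_18bf68_lc.NoPolyTime

open Helper952Quasi

theorem result : (∃ (I : ℕ → Input) (c : ℕ), ∀ N : ℕ, (I N).Valid ∧
    (I N).bits ≤ (N + 2) ^ c ∧
    ∀ (k : ℕ) (x : ℤ → E3) (F : ℤ → Finset ℕ), (I N).toSurf.IsSCQ k x F →
      ∃ (j : ℤ) (i : Fin 3), ∀ g : Polynomial ℚ, g ≠ 0 → Polynomial.aeval (x j i) g = 0 →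
        2 ^ N ≤ g.natDegree) ∧
    ∀ (αΓ βΓ Out : Type) (ea : Input → List αΓ) (eb : Out → List βΓ)
      (Rep : Out → ℕ → (ℤ → E3) → (ℤ → Finset ℕ) → Prop) (p q : Polynomial ℕ),
      (∀ I, (ea I).length ≤ p.eval I.bits) →
      (∀ o k x F, Rep o k x F → ∀ (j : ℤ) (i : Fin 3), ∃ g : Polynomial ℚ,
        g ≠ 0 ∧ Polynomial.aeval (x j i) g = 0 ∧ g.natDegree ≤ q.eval (eb o).length) →
      ∀ f : Input → Out,
        (∀ I : Input, I.Valid → ∃ k x F, Rep (f I) k x F ∧ I.toSurf.IsSCQ k x F) →
        IsEmpty (Turing.TM2ComputableInPolyTime ea eb f) :=
  main

end Pool.Agent.Results.MP_18bf68_lc.NoPolyTime
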